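import Pool.Agent.helper43.NO.Defs
import Pool.Agent.helper99.NO.A1
import Pool.Agent.helper10.NO.A2

/-!
Module A3: the finite second moment inequality.
-/

open Finset

namespace Pool.Agent.helper32.NO

open Pool.Agent.helper43.NO Pool.Agent.helper99.NO Pool.Agent.helper10.NO

/-- the truncated weight -/
noncomputable def tw (P : Finset ℕ) (R : ℕ) (v a b : ℝ) (m : ℕ) : ℝ :=
  if a ≤ (om P m : ℝ) ∧ (om P m : ℝ) ≤ b then w P R v m else 0

lemma tw_nonneg (P : Finset ℕ) (R : ℕ) (v a b : ℝ) (m : ℕ) (hv : 0 ≤ v) :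
    0 ≤ tw P R v a b m := by
  unfold tw; split_ifs
  · exact w_nonneg P R v m hv
  · exact le_refl _

lemma tw_le_w (P : Finset ℕ) (R : ℕ) (v a b : ℝ) (m : ℕ) (hv : 0 ≤ v) :
    tw P R v a b m ≤ w P R v m := by
  unfold tw; split_ifs
  · exact le_refl _
  · exact w_nonneg P R v m hv

lemma tw_sq_le (P : Finset ℕ) (R : ℕ) (v a b : ℝ) (m : ℕ) (hP : ∀ p ∈ P, p.Prime) (hv : 0 ≤ v) :
    tw P R v a b m * tw P R v a b m ≤ (1 + v) ^ b * w P R v m := by
  have hw := w_nonneg P R v m hv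
  have h1v : (1 : ℝ) ≤ 1 + v := by linarith
  unfold tw; split_ifs with h
  · apply mul_le_mul_of_nonneg_right _ hw
    calc w P R v m ≤ (1 + v) ^ (om P m) := w_le P R v m hP hv
      _ = (1 + v) ^ ((om P m : ℕ) : ℝ) := (Real.rpow_natCast _ _).symm
      _ ≤ (1 + v) ^ b := Real.rpow_le_rpow_of_exponent_le h1v h.2
  · rw [mul_zero]
    exact mul_nonneg (Real.rpow_nonneg (by linarith) _) hw

lemma one_le_M (P : Finset ℕ) (R : ℕ) (v : ℝ) (hv : 0 ≤ v) : 1 ≤ M P R v := by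
  unfold M
  have h0 : (∅ : Finset ℕ) ∈ fam P R := by
    unfold fam; simp
  have := Finset.single_le_sum (f := fun T : Finset ℕ => v ^ T.card / ((∏ p ∈ T, p : ℕ) : ℝ))
    (s := fam P R) (fun T _ => by positivity) h0
  simpa using this

/-- the part of the weight outside the window -/
lemma out_le (P : Finset ℕ) (R : ℕ) (v ρ σ a b : ℝ) (m : ℕ) (hP : ∀ p ∈ P, p.Prime) (hv : 0 ≤ v)
    (hρ : 1 ≤ ρ) (hσ : 0 < σ) (hσ1 : σ ≤ 1) :
    w P R v m - tw P R v a b m ≤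
      ρ ^ (-b) * ((1 + v) * ρ) ^ (om P m) + σ ^ (-a) * ((1 + v) * σ) ^ (om P m) := by
  have hρ0 : 0 < ρ := by linarith
  have h1v : (1 : ℝ) ≤ 1 + v := by linarith
  have hA : 0 ≤ ρ ^ (-b) * ((1 + v) * ρ) ^ (om P m) := by positivity
  have hB : 0 ≤ σ ^ (-a) * ((1 + v) * σ) ^ (om P m) := by positivity
  unfold tw; split_ifs with h
  · rw [sub_self]; exact add_nonneg hA hB
  · rw [sub_zero]
    have hw := w_le P R v m hP hv
    rw [not_and_or, not_le, not_le] at h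
    rcases h with h | h
    · have h1 : (1 + v) ^ (om P m) ≤ σ ^ (-a) * ((1 + v) * σ) ^ (om P m) := by
        have h2 : (1 : ℝ) ≤ σ ^ (-a) * σ ^ (om P m) := by
          rw [← Real.rpow_natCast σ (om P m), ← Real.rpow_add hσ]
          exact Real.one_le_rpow_of_pos_of_le_one_of_nonpos hσ hσ1 (by linarith)
        calc (1 + v) ^ (om P m) = (1 + v) ^ (om P m) * 1 := (mul_one _).symm
          _ ≤ (1 + v) ^ (om P m) * (σ ^ (-a) * σ ^ (om P m)) :=
            mul_le_mul_of_nonneg_left h2 (by positivity)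
          _ = σ ^ (-a) * ((1 + v) * σ) ^ (om P m) := by rw [mul_pow]; ring
      linarith
    · have h1 : (1 + v) ^ (om P m) ≤ ρ ^ (-b) * ((1 + v) * ρ) ^ (om P m) := by
        have h2 : (1 : ℝ) ≤ ρ ^ (-b) * ρ ^ (om P m) := by
          rw [← Real.rpow_natCast ρ (om P m), ← Real.rpow_add hρ0]
          exact Real.one_le_rpow hρ (by linarith)
        calc (1 + v) ^ (om P m) = (1 + v) ^ (om P m) * 1 := (mul_one _).symm
          _ ≤ (1 + v) ^ (om P m) * (ρ ^ (-b) * ρ ^ (om P m)) :=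
            mul_le_mul_of_nonneg_left h2 (by positivity)
          _ = ρ ^ (-b) * ((1 + v) * ρ) ^ (om P m) := by rw [mul_pow]; ring
      linarith

/-- sum of the part outside the window over a shifted interval -/
lemma out_sum (P : Finset ℕ) (K x R k : ℕ) (v ρ σ a b : ℝ) (hP : ∀ p ∈ P, p.Prime) (hv : 0 ≤ v)
    (hρ : 1 ≤ ρ) (hσ : 0 < σ) (hσ1 : σ ≤ 1) (hvσ : 1 ≤ (1 + v) * σ) (hk : k ∈ Icc 1 K) :
    ∑ n ∈ Ioc K x, (w P R v (n - k) - tw P R v a b (n - k)) ≤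
      x * (ρ ^ (-b) * pr P ((1 + v) * ρ - 1) + σ ^ (-a) * pr P ((1 + v) * σ - 1)) := by
  rw [mem_Icc] at hk
  have h1 : ∑ n ∈ Ioc K x, (w P R v (n - k) - tw P R v a b (n - k)) ≤
      ∑ m ∈ Icc 1 x, (w P R v m - tw P R v a b m) := by
    have hinj : ∀ n ∈ Ioc K x, ∀ n' ∈ Ioc K x, n - k = n' - k → n = n' := by
      intro n hn n' hn' h
      rw [mem_Ioc] at hn hn'
      omega
    rw [← Finset.sum_image (f := fun m => w P R v m - tw P R v a b m) (g := fun n => n - k) hinj]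
    apply Finset.sum_le_sum_of_subset_of_nonneg
    · intro m hm
      rw [mem_image] at hm
      obtain ⟨n, hn, rfl⟩ := hm
      rw [mem_Ioc] at hn
      rw [mem_Icc]
      omega
    · intro m _ _
      linarith [tw_le_w P R v a b m hv]
  have h2 : ∑ m ∈ Icc 1 x, (w P R v m - tw P R v a b m) ≤
      ∑ m ∈ Icc 1 x, (ρ ^ (-b) * ((1 + v) * ρ) ^ (om P m) +
        σ ^ (-a) * ((1 + v) * σ) ^ (om P m)) :=
    Finset.sum_le_sum (fun m _ => out_le P R v ρ σ a b m hP hv hρ hσ hσ1)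
  have h3 : ∑ m ∈ Icc 1 x, (ρ ^ (-b) * ((1 + v) * ρ) ^ (om P m) +
        σ ^ (-a) * ((1 + v) * σ) ^ (om P m)) =
      ρ ^ (-b) * ∑ m ∈ Icc 1 x, ((1 + v) * ρ) ^ (om P m) +
        σ ^ (-a) * ∑ m ∈ Icc 1 x, ((1 + v) * σ) ^ (om P m) := by
    rw [Finset.sum_add_distrib, Finset.mul_sum, Finset.mul_sum]
  have h4 := tilt P ((1 + v) * ρ) x hP (by nlinarith)
  have h5 := tilt P ((1 + v) * σ) x hP hvσ
  have hρ0 : 0 < ρ := by linarith
  have h6 := mul_le_mul_of_nonneg_left h4 (Real.rpow_nonneg hρ0.le (-b))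
  have h7 := mul_le_mul_of_nonneg_left h5 (Real.rpow_nonneg hσ.le (-a))
  calc _ ≤ _ := h1
    _ ≤ _ := h2
    _ = _ := h3
    _ ≤ ρ ^ (-b) * (x * pr P ((1 + v) * ρ - 1)) + σ ^ (-a) * (x * pr P ((1 + v) * σ - 1)) :=
      add_le_add h6 h7
    _ = _ := by ring

/-- the finite inequality: few `n` have no `k ∈ [1,K]` with `a ≤ ω_P(n-k) ≤ b`. -/
theorem finite_count (P : Finset ℕ) (K x z R : ℕ) (v ρ σ a b : ℝ)
    (hP : ∀ p ∈ P, p.Prime ∧ K < p ∧ p ≤ z) (hz : 1 ≤ z) (hK : 1 ≤ K) (hKx : K ≤ x) (hv : 0 < v)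
    (hρ : 1 ≤ ρ) (hσ : 0 < σ) (hσ1 : σ ≤ 1) (hvσ : 1 ≤ (1 + v) * σ) (B : Finset ℕ)
    (hB : ∀ n ∈ B, K < n ∧ n ≤ x ∧
      ∀ k ∈ Icc 1 K, ¬ (a ≤ (om P (n - k) : ℝ) ∧ (om P (n - k) : ℝ) ≤ b)) :
    (B.card : ℝ) ≤ (1 + v) ^ b * (x + (z : ℝ) ^ R) / (K * M P R v)
      + ((z : ℝ) ^ (2 * R) + 2 * (z : ℝ) ^ R)
      + (2 * x / M P R v) *
        (ρ ^ (-b) * pr P ((1 + v) * ρ - 1) + σ ^ (-a) * pr P ((1 + v) * σ - 1)) := by
  classical
  have hPp : ∀ p ∈ P, p.Prime := fun p hp => (hP p hp).1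
  have hv0 : 0 ≤ v := hv.le
  set μ : ℝ := M P R v with hμ
  have hμ1 : 1 ≤ μ := one_le_M P R v hv0
  set D : ℝ := x * (ρ ^ (-b) * pr P ((1 + v) * ρ - 1) + σ ^ (-a) * pr P ((1 + v) * σ - 1)) with hD
  set L : ℝ := (x : ℝ) - K with hL
  have hKx' : (K : ℝ) ≤ x := by exact_mod_cast hKx
  have hK1 : (1 : ℝ) ≤ K := by exact_mod_cast hK
  have hL0 : 0 ≤ L := by rw [hL]; linarith
  set Z : ℝ := (z : ℝ) ^ R with hZ
  set Z2 : ℝ := (z : ℝ) ^ (2 * R) with hZ2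
  have hZ0 : 0 ≤ Z := by positivity
  have hZ20 : 0 ≤ Z2 := by positivity
  set X : ℕ → ℝ := fun n => ∑ k ∈ Icc 1 K, tw P R v a b (n - k) with hX
  have hc : (1 + v) ^ b ≥ 0 := Real.rpow_nonneg (by linarith) _
  -- first moment, upper bound for one shift
  have hfirst : ∀ k ∈ Icc 1 K, |∑ n ∈ Ioc K x, w P R v (n - k) - L * μ| ≤ Z * μ := by
    intro k hk
    exact first P R v K x z k hP hz hv0 hKx hk
  -- total first moment
  have hsum1 : (K : ℝ) * (L * μ - Z * μ) - K * D ≤ ∑ n ∈ Ioc K x, X n := by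
    have h1 : ∑ n ∈ Ioc K x, X n = ∑ k ∈ Icc 1 K, ∑ n ∈ Ioc K x, tw P R v a b (n - k) := by
      rw [hX]; exact Finset.sum_comm
    rw [h1]
    have h2 : ∀ k ∈ Icc 1 K, L * μ - Z * μ - D ≤ ∑ n ∈ Ioc K x, tw P R v a b (n - k) := by
      intro k hk
      have h3 := out_sum P K x R k v ρ σ a b hPp hv0 hρ hσ hσ1 hvσ hk
      rw [Finset.sum_sub_distrib] at h3
      have h4 := (abs_le.mp (hfirst k hk)).1
      linarith
    have h5 := Finset.sum_le_sum h2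
    rw [Finset.sum_const, Nat.card_Icc, nsmul_eq_mul] at h5
    have h6 : ((K + 1 - 1 : ℕ) : ℝ) = K := by simp
    rw [h6] at h5
    linarith
  -- second moment
  have hsum2 : ∑ n ∈ Ioc K x, X n ^ 2 ≤
      K * ((1 + v) ^ b * ((L + Z) * μ)) + K ^ 2 * ((L + Z2) * μ ^ 2) := by
    have h1 : ∑ n ∈ Ioc K x, X n ^ 2 =
        ∑ k ∈ Icc 1 K, ∑ k' ∈ Icc 1 K, ∑ n ∈ Ioc K x,
          tw P R v a b (n - k) * tw P R v a b (n - k') := by
      have h2 : ∀ n, X n ^ 2 = ∑ k ∈ Icc 1 K, ∑ k' ∈ Icc 1 K,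
          tw P R v a b (n - k) * tw P R v a b (n - k') := by
        intro n
        rw [hX, sq, Finset.sum_mul_sum]
      rw [Finset.sum_congr rfl (fun n _ => h2 n), Finset.sum_comm]
      exact Finset.sum_congr rfl (fun k _ => Finset.sum_comm)
    have h3 : ∀ k ∈ Icc 1 K, ∀ k' ∈ Icc 1 K, ∑ n ∈ Ioc K x,
          tw P R v a b (n - k) * tw P R v a b (n - k') ≤
        (if k = k' then (1 + v) ^ b * ((L + Z) * μ) else 0) + (L + Z2) * μ ^ 2 := by
      intro k hk k' hk'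
      have hpos : 0 ≤ (L + Z2) * μ ^ 2 := by positivity
      split_ifs with h
      · subst h
        have h4 : ∑ n ∈ Ioc K x, tw P R v a b (n - k) * tw P R v a b (n - k) ≤
            ∑ n ∈ Ioc K x, (1 + v) ^ b * w P R v (n - k) :=
          Finset.sum_le_sum (fun n _ => tw_sq_le P R v a b (n - k) hPp hv0)
        rw [← Finset.mul_sum] at h4
        have h5 := (abs_le.mp (hfirst k hk)).2
        have h6 : ∑ n ∈ Ioc K x, w P R v (n - k) ≤ (L + Z) * μ := by linarith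
        have h7 := mul_le_mul_of_nonneg_left h6 hc
        linarith
      · have h4 : ∑ n ∈ Ioc K x, tw P R v a b (n - k) * tw P R v a b (n - k') ≤
            ∑ n ∈ Ioc K x, w P R v (n - k) * w P R v (n - k') := by
          apply Finset.sum_le_sum
          intro n _
          exact mul_le_mul (tw_le_w P R v a b _ hv0) (tw_le_w P R v a b _ hv0)
            (tw_nonneg P R v a b _ hv0) (w_nonneg P R v _ hv0)
        have h5 := pair P R v K x z k k' hP hz hv0 hKx hk hk' h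
        have h6 : ∑ n ∈ Ioc K x, w P R v (n - k) * w P R v (n - k') ≤ (L + Z2) * μ ^ 2 := h5
        linarith
    have h4 : ∑ k ∈ Icc 1 K, ∑ k' ∈ Icc 1 K, ∑ n ∈ Ioc K x,
          tw P R v a b (n - k) * tw P R v a b (n - k') ≤
        ∑ k ∈ Icc 1 K, ∑ k' ∈ Icc 1 K,
          ((if k = k' then (1 + v) ^ b * ((L + Z) * μ) else 0) + (L + Z2) * μ ^ 2) :=
      Finset.sum_le_sum (fun k hk => Finset.sum_le_sum (fun k' hk' => h3 k hk k' hk'))
    have h5 : ∑ k ∈ Icc 1 K, ∑ k' ∈ Icc 1 K,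
          ((if k = k' then (1 + v) ^ b * ((L + Z) * μ) else 0) + (L + Z2) * μ ^ 2) =
        K * ((1 + v) ^ b * ((L + Z) * μ)) + K ^ 2 * ((L + Z2) * μ ^ 2) := by
      have h6 : ∀ k ∈ Icc 1 K, ∑ k' ∈ Icc 1 K,
          ((if k = k' then (1 + v) ^ b * ((L + Z) * μ) else 0) + (L + Z2) * μ ^ 2) =
          (1 + v) ^ b * ((L + Z) * μ) + K * ((L + Z2) * μ ^ 2) := by
        intro k hk
        rw [Finset.sum_add_distrib, Finset.sum_ite_eq, if_pos hk, Finset.sum_const, Nat.card_Icc,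
          nsmul_eq_mul]
        simp
      rw [Finset.sum_congr rfl h6, Finset.sum_const, Nat.card_Icc, nsmul_eq_mul]
      have h7 : ((K + 1 - 1 : ℕ) : ℝ) = K := by simp
      rw [h7]; ring
    rw [h1]
    linarith
  -- the variance
  have hvar : (B.card : ℝ) * (K * μ) ^ 2 ≤ ∑ n ∈ Ioc K x, (X n - K * μ) ^ 2 := by
    have hBsub : B ⊆ Ioc K x := by
      intro n hn
      rw [mem_Ioc]
      exact ⟨(hB n hn).1, (hB n hn).2.1⟩
    have h1 : ∑ n ∈ B, (X n - K * μ) ^ 2 = (B.card : ℝ) * (K * μ) ^ 2 := by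
      have h3 : ∀ n ∈ B, (X n - K * μ) ^ 2 = (K * μ) ^ 2 := by
        intro n hn
        have h2 : X n = 0 := by
          rw [hX]
          apply Finset.sum_eq_zero
          intro k hk
          unfold tw
          rw [if_neg ((hB n hn).2.2 k hk)]
        rw [h2]; ring
      rw [Finset.sum_congr rfl h3, Finset.sum_const, nsmul_eq_mul]
    rw [← h1]
    exact Finset.sum_le_sum_of_subset_of_nonneg hBsub (fun n _ _ => sq_nonneg _)
  have hexp : ∑ n ∈ Ioc K x, (X n - K * μ) ^ 2 =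
      ∑ n ∈ Ioc K x, X n ^ 2 - 2 * (K * μ) * ∑ n ∈ Ioc K x, X n + L * (K * μ) ^ 2 := by
    have h1 : ∀ n, (X n - K * μ) ^ 2 = X n ^ 2 - 2 * (K * μ) * X n + (K * μ) ^ 2 := by
      intro n; ring
    rw [Finset.sum_congr rfl (fun n _ => h1 n), Finset.sum_add_distrib, Finset.sum_sub_distrib,
      ← Finset.mul_sum, Finset.sum_const, Nat.card_Ioc, nsmul_eq_mul, Nat.cast_sub hKx]
  have hKμ : 0 < (K : ℝ) * μ := by positivity
  have hmain : (B.card : ℝ) * (K * μ) ^ 2 ≤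
      K * ((1 + v) ^ b * ((L + Z) * μ)) + (K * μ) ^ 2 * (Z2 + 2 * Z) + 2 * (K * μ) * (K * D) := by
    have h1 := mul_le_mul_of_nonneg_left hsum1 (by linarith : (0 : ℝ) ≤ 2 * (K * μ))
    have h2 : (K : ℝ) ^ 2 * ((L + Z2) * μ ^ 2) = (K * μ) ^ 2 * (L + Z2) := by ring
    have h3 : 2 * ((K : ℝ) * μ) * (K * (L * μ - Z * μ) - K * D) =
        2 * (K * μ) ^ 2 * (L - Z) - 2 * (K * μ) * (K * D) := by ring
    rw [h3] at h1
    rw [h2] at hsum2
    nlinarith [hvar, hexp, hsum2, h1]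
  have hdiv : (B.card : ℝ) ≤ (K * ((1 + v) ^ b * ((L + Z) * μ)) + (K * μ) ^ 2 * (Z2 + 2 * Z) +
      2 * (K * μ) * (K * D)) / (K * μ) ^ 2 := by
    rw [le_div_iff₀ (by positivity)]
    exact hmain
  have hK0 : (K : ℝ) ≠ 0 := by linarith
  have hμ0 : μ ≠ 0 := by linarith
  have heq : (K * ((1 + v) ^ b * ((L + Z) * μ)) + (K * μ) ^ 2 * (Z2 + 2 * Z) +
      2 * (K * μ) * (K * D)) / (K * μ) ^ 2 =
      (1 + v) ^ b * (L + Z) / (K * μ) + (Z2 + 2 * Z) + 2 * D / μ := by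
    field_simp
  rw [heq] at hdiv
  have hlast : (1 + v) ^ b * (L + Z) / (K * μ) ≤ (1 + v) ^ b * (x + Z) / (K * μ) := by
    apply div_le_div_of_nonneg_right _ hKμ.le
    apply mul_le_mul_of_nonneg_left _ hc
    rw [hL]; linarith
  have hlast2 : 2 * D / μ = (2 * x / μ) *
        (ρ ^ (-b) * pr P ((1 + v) * ρ - 1) + σ ^ (-a) * pr P ((1 + v) * σ - 1)) := by
    rw [hD]; ring
  linarith

end Pool.Agent.helper32.NO
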